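import Pool.Agent.Helper273.Brg.Defs



namespace Pool.Agent.Helper273.Sup
open IntermediateField


theorem newton_alg {k K : Type*} [Field k] [Field K] [Algebra k K] [CharZero k]
    (B : IntermediateField k K) {m : ℕ} (v : Fin m → K)
    (h : ∀ i, 1 ≤ i → i ≤ m → ∑ l, v l ^ i ∈ B) : ∀ j, IsAlgebraic B (v j) := by
  classical
  haveI : CharZero K := charZero_of_injective_algebraMap (algebraMap k K).injective
  set s : Multiset K := (Finset.univ : Finset (Fin m)).val.map v with hs
  have hcard : Multiset.card s = m := by simp [hs]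
  have hpos : ∀ (i : ℕ) (z : K), z ∈ B → (-1 : K) ^ i * z ∈ B := fun i z hz =>
    B.mul_mem (pow_mem (B.neg_mem B.one_mem) i) hz
  have key : ∀ i : ℕ, i ≤ m → s.esymm i ∈ B := by
    intro i
    induction i using Nat.strong_induction_on with
    | _ i ih =>
      intro him
      rcases Nat.eq_zero_or_pos i with rfl | hi
      · simp [Multiset.esymm, B.one_mem]
      · have h1 := congrArg (MvPolynomial.aeval (R := ℤ) v)
          (MvPolynomial.mul_esymm_eq_sum (Fin m) ℤ i)
        simp only [map_mul, map_natCast, MvPolynomial.aeval_esymm_eq_multiset_esymm, map_pow,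
          map_neg, map_one, map_sum, MvPolynomial.psum, MvPolynomial.aeval_X] at h1
        rw [← hs] at h1
        have h2 : (i : K) * s.esymm i ∈ B := by
          rw [h1]
          refine hpos _ _ (sum_mem fun a ha => ?_)
          rw [Finset.mem_filter, Finset.HasAntidiagonal.mem_antidiagonal] at ha
          obtain ⟨ha1, ha2⟩ := ha
          refine B.mul_mem (hpos _ _ (ih a.1 ha2 (by omega))) (h a.2 (by omega) (by omega))
        have hi0 : (i : K) ≠ 0 := by exact_mod_cast hi.ne'
        have h3 : s.esymm i = (i : K)⁻¹ * ((i : K) * s.esymm i) := by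
          rw [inv_mul_cancel_left₀ hi0]
        rw [h3]
        exact B.mul_mem (B.inv_mem (IntermediateField.natCast_mem B i)) h2
  let e : ℕ → B := fun j => if hj : s.esymm j ∈ B then ⟨s.esymm j, hj⟩ else 0
  have he : ∀ j, j ≤ m → algebraMap B K (e j) = s.esymm j := by
    intro j hj
    have := key j hj
    simp only [e, dif_pos this]
    rfl
  let q : Polynomial B := ∑ j ∈ Finset.range (m + 1),
    (-1) ^ j * (Polynomial.C (e j) * Polynomial.X ^ (m - j))
  have hq : q.map (algebraMap B K) = (s.map fun t => Polynomial.X - Polynomial.C t).prod := by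
    rw [Multiset.prod_X_sub_X_eq_sum_esymm, hcard]
    simp only [q, Polynomial.map_sum, Polynomial.map_mul, Polynomial.map_pow, Polynomial.map_neg,
      Polynomial.map_one, Polynomial.map_C, Polynomial.map_X]
    refine Finset.sum_congr rfl fun j hj => ?_
    rw [he j (by have := Finset.mem_range.1 hj; omega)]
  intro j
  refine ⟨q, ?_, ?_⟩
  · intro h0
    rw [h0, Polynomial.map_zero] at hq
    have hm : ((s.map fun t => Polynomial.X - Polynomial.C t).prod : Polynomial K).Monic :=
      Polynomial.monic_multiset_prod_of_monic _ _ fun a _ => Polynomial.monic_X_sub_C a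
    rw [← hq] at hm
    exact hm.ne_zero rfl
  · rw [Polynomial.aeval_def, Polynomial.eval₂_eq_eval_map, hq, Polynomial.eval_multiset_prod]
    apply Multiset.prod_eq_zero
    rw [Multiset.mem_map]
    refine ⟨Polynomial.X - Polynomial.C (v j), ?_, by simp⟩
    rw [Multiset.mem_map]
    refine ⟨v j, ?_, rfl⟩
    rw [hs, Multiset.mem_map]
    exact ⟨j, Finset.mem_univ j, rfl⟩

end Pool.Agent.Helper273.Sup
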