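import Pool.Agent.Helper273.Brg.Defs
import Pool.Agent.Helper273.Gen.P_newton_alg



namespace Pool.Agent.Helper273.Sup
open IntermediateField


theorem alg_many {k K : Type*} [Field k] [Field K] [Algebra k K] [CharZero k] {n d : ℕ}
    (hd : 1 ≤ d) (hdn : d ≤ n) (w : Fin n → K) (i0 : Fin n) (h0 : w i0 = 1)
    (h : ∀ i, 1 ≤ i → i ≤ d - 1 → ∑ l, w l ^ i = 0) :
    ∃ u : Fin (n - d) → K, ∀ a ∈ adjoin k (Set.range w),
      IsAlgebraic (adjoin k (Set.range u)) a := by
  classical
  have hcard : d - 1 ≤ (Finset.univ.erase i0).card := by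
    rw [Finset.card_erase_of_mem (Finset.mem_univ _), Finset.card_univ, Fintype.card_fin]
    omega
  obtain ⟨D, hD, hDc⟩ := Finset.exists_subset_card_eq hcard
  obtain ⟨R, hRdef⟩ : ∃ R : Finset (Fin n), R = (Finset.univ.erase i0) \ D := ⟨_, rfl⟩
  have hRc : R.card = n - d := by
    rw [hRdef, Finset.card_sdiff_of_subset hD, Finset.card_erase_of_mem (Finset.mem_univ _),
      Finset.card_univ, Fintype.card_fin, hDc]
    omega
  refine ⟨fun l => w (R.orderEmbOfFin hRc l), ?_⟩
  obtain ⟨L, hL⟩ : ∃ L : IntermediateField k K,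
    L = adjoin k (Set.range fun l => w (R.orderEmbOfFin hRc l)) := ⟨_, rfl⟩
  rw [← hL]
  have hR : ∀ j ∈ R, w j ∈ L := by
    intro j hj
    rw [hL]
    apply subset_adjoin
    have h1 : j ∈ Set.range (R.orderEmbOfFin hRc) := by
      rw [Finset.range_orderEmbOfFin]
      exact hj
    obtain ⟨l, rfl⟩ := h1
    exact ⟨l, rfl⟩
  have hsplit : ∀ f : Fin n → K, ∑ j, f j = f i0 + (∑ j ∈ R, f j + ∑ j ∈ D, f j) := by
    intro f
    rw [hRdef, Finset.sum_sdiff hD, Finset.add_sum_erase _ _ (Finset.mem_univ i0)]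
  have hv : ∀ j, IsAlgebraic L ((fun l : Fin (d-1) => w (D.orderEmbOfFin hDc l)) j) := by
    apply newton_alg L
    intro i hi1 hi2
    have h1 : ∑ l, (w (D.orderEmbOfFin hDc l))^i = ∑ j ∈ D, w j ^ i := by
      conv_rhs => rw [← Finset.map_orderEmbOfFin_univ D hDc, Finset.sum_map]
      rfl
    show ∑ l, (w (D.orderEmbOfFin hDc l))^i ∈ L
    rw [h1]
    have h2 := h i hi1 hi2
    rw [hsplit, h0, one_pow] at h2
    have h3 : ∑ j ∈ D, w j ^ i = -(1 + ∑ j ∈ R, w j ^ i) := by
      linear_combination h2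
    rw [h3]
    apply neg_mem
    apply add_mem (one_mem _)
    exact sum_mem fun j hj => pow_mem (hR j hj) i
  have hall : ∀ j, IsAlgebraic L (w j) := by
    intro j
    by_cases hj0 : j = i0
    · rw [hj0, h0]
      exact isAlgebraic_one
    · by_cases hjD : j ∈ D
      · have h1 : j ∈ Set.range (D.orderEmbOfFin hDc) := by
          rw [Finset.range_orderEmbOfFin]
          exact hjD
        obtain ⟨l, rfl⟩ := h1
        exact hv l
      · have hjR : j ∈ R := by
          rw [hRdef, Finset.mem_sdiff, Finset.mem_erase]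
          exact ⟨⟨hj0, Finset.mem_univ _⟩, hjD⟩
        exact isAlgebraic_algebraMap (⟨w j, hR j hjR⟩ : L)
  intro a ha
  have hle : adjoin k (Set.range w) ≤ (algebraicClosure L K).restrictScalars k := by
    rw [adjoin_le_iff]
    rintro _ ⟨j, rfl⟩
    rw [SetLike.mem_coe, mem_restrictScalars, mem_algebraicClosure_iff]
    exact hall j
  have h4 := hle ha
  rw [mem_restrictScalars, mem_algebraicClosure_iff] at h4
  exact h4

end Pool.Agent.Helper273.Sup
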