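import Pool.Agent.Helper273.Brg.Defs
import Pool.Agent.Helper273.Gen.P_common_zero



namespace Pool.Agent.Helper273.Sup
open IntermediateField


theorem isAlgClosed_algebraicClosure_aux (F E : Type*) [Field F] [Field E] [Algebra F E]
    [IsAlgClosed E] : IsAlgClosed (algebraicClosure F E) :=
  (algebraicClosure.isAlgClosure F E).isAlgClosed

theorem common_zero_sub {k K : Type*} [Field k] [Field K] [Algebra k K] [IsAlgClosed K]
    (B : IntermediateField k K) {m q : ℕ} (hq : q < m)
    (T : (i : ℕ) → (Fin i → Fin m) → K) (hT : ∀ i φ, T i φ ∈ B) :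
    ∃ c : Fin m → K, c ≠ 0 ∧ (∀ j, IsAlgebraic B (c j)) ∧
      ∀ i, 2 ≤ i → i ≤ q + 1 → ∑ φ : Fin i → Fin m, T i φ * ∏ a, c (φ a) = 0 := by
  classical
  have hL : IsAlgClosed (algebraicClosure B K) := isAlgClosed_algebraicClosure_aux B K
  have hmem : ∀ i φ, T i φ ∈ algebraicClosure B K := fun i φ =>
    (algebraicClosure B K).algebraMap_mem ⟨T i φ, hT i φ⟩
  obtain ⟨c, hc0, hc⟩ := common_zero (L := algebraicClosure B K) hq
    (fun i : Fin q => ∑ φ : Fin ((i : ℕ) + 2) → Fin m,
      MvPolynomial.C (⟨T (i + 2) φ, hmem _ φ⟩ : algebraicClosure B K) * ∏ a, MvPolynomial.X (φ a))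
    (fun i => (i : ℕ) + 2) (fun i => by omega) (fun i => by
      refine MvPolynomial.IsHomogeneous.sum _ _ _ (fun φ _ => ?_)
      have h1 := (MvPolynomial.isHomogeneous_C (Fin m) (⟨T (i + 2) φ, hmem _ φ⟩ : algebraicClosure B K)).mul
        (MvPolynomial.IsHomogeneous.prod Finset.univ
          (fun a => (MvPolynomial.X (φ a) : MvPolynomial (Fin m) (algebraicClosure B K))) (fun _ => 1)
          (fun a _ => MvPolynomial.isHomogeneous_X _ _))
      simpa using h1)
  refine ⟨fun j => (c j : K), ?_, ?_, ?_⟩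
  · intro h
    apply hc0
    funext j
    have := congrFun h j
    exact Subtype.ext this
  · intro j
    exact mem_algebraicClosure_iff.mp (c j).2
  · intro i hi1 hi2
    obtain ⟨i', rfl⟩ : ∃ i', i = i' + 2 := ⟨i - 2, by omega⟩
    have h1 := hc ⟨i', by omega⟩
    have h2 := congrArg (fun z : algebraicClosure B K => (z : K)) h1
    simpa [MvPolynomial.eval_prod] using h2

end Pool.Agent.Helper273.Sup
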