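import Pool.Agent.Helper273.Brg.Defs
import Pool.Agent.Helper273.Sup.P_fixed_mem
import Pool.Agent.Helper273.Sup.P_exists_hom



namespace Pool.Agent.Helper273.Sup
open IntermediateField


theorem equi_prod {k K : Type*} [Field k] [Field K] [Algebra k K] [CharZero k] [IsAlgClosed K]
    {n : ℕ} (x y : Fin n → K) (hx : Gen k x) (hy : IsRoots x y) {m : ℕ}
    (b : Fin m → Fin n → K) (hb : ∀ j, Equi k y (adjoin k (Set.range x)) (b j)) (i : ℕ)
    (φ : Fin i → Fin m) : ∑ l, ∏ a, b (φ a) l ∈ adjoin k (Set.range x) := by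
  apply fixed_mem _ hx.alg
  intro σ hσ
  obtain ⟨ρ, hρ⟩ := exists_hom x y hx hy
  have hmem : σ ∈ (adjoin k (Set.range x)).fixingSubgroup := by
    rw [IntermediateField.mem_fixingSubgroup_iff]
    exact hσ
  have hπ : ∀ i, σ (y i) = y ((ρ ⟨σ, hmem⟩) i) := fun i => hρ ⟨σ, hmem⟩ i
  rw [map_sum, ← Equiv.sum_comp (ρ ⟨σ, hmem⟩) (fun l => ∏ a, b (φ a) l)]
  refine Finset.sum_congr rfl fun l _ => ?_
  rw [map_prod]
  exact Finset.prod_congr rfl fun a _ => hb (φ a) σ hσ _ hπ l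

end Pool.Agent.Helper273.Sup
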