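import Pool.Agent.Helper273.Brg.Defs



namespace Pool.Agent.Helper273.Sup
open IntermediateField


theorem param_enum {k K : Type*} [Field k] [Field K] [Algebra k K] {m n : ℕ}
    (b : Fin m → Fin n → K) (B : IntermediateField k K)
    (hb : ∀ i ≤ m, ∀ φ : Fin i → Fin m, ∑ l, ∏ a, b (φ a) l ∈ B) :
    ∃ t : Fin (Nat.centralBinom m) → K, (∀ j, t j ∈ B) ∧
      ∀ i ≤ m, ∀ φ : Fin i → Fin m, ∑ l, ∏ a, b (φ a) l ∈ Set.range t := by
  classical
  let b' : Fin (m+1) → Fin n → K := fun a => Fin.cases (fun _ => 1) b a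
  let T : Sym (Fin (m+1)) m → K := fun s =>
    ∑ l, ((s : Multiset (Fin (m+1))).map (fun a => b' a l)).prod
  have hcard : Fintype.card (Sym (Fin (m+1)) m) = Nat.centralBinom m := by
    rw [Sym.card_sym_eq_choose, Fintype.card_fin, Nat.centralBinom_eq_two_mul_choose]
    congr 1
    omega
  let e : Sym (Fin (m+1)) m ≃ Fin (Nat.centralBinom m) := Fintype.equivFinOfCardEq hcard
  refine ⟨fun j => if T (e.symm j) ∈ B then T (e.symm j) else 0, ?_, ?_⟩
  · intro j
    show (if T (e.symm j) ∈ B then T (e.symm j) else 0) ∈ B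
    by_cases h : T (e.symm j) ∈ B
    · rw [if_pos h]
      exact h
    · rw [if_neg h]
      exact B.zero_mem
  · intro i hi φ
    let s : Sym (Fin (m+1)) m :=
      ⟨Multiset.replicate (m - i) 0 + (Finset.univ : Finset (Fin i)).val.map (fun a => (φ a).succ), by
        rw [Multiset.card_add, Multiset.card_replicate, Multiset.card_map]
        have : Multiset.card (Finset.univ : Finset (Fin i)).val = i := Finset.card_fin i
        omega⟩
    have hT : T s = ∑ l, ∏ a, b (φ a) l := by
      refine Finset.sum_congr rfl fun l _ => ?_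
      show ((Multiset.replicate (m - i) (0 : Fin (m+1)) +
        (Finset.univ : Finset (Fin i)).val.map (fun a => (φ a).succ)).map (fun a => b' a l)).prod = _
      rw [Multiset.map_add, Multiset.prod_add, Multiset.map_replicate, Multiset.prod_replicate,
        Multiset.map_map]
      have h1 : b' 0 l = 1 := rfl
      rw [h1, one_pow, one_mul]
      rfl
    refine ⟨e s, ?_⟩
    show (if T (e.symm (e s)) ∈ B then T (e.symm (e s)) else 0) = _
    rw [e.symm_apply_apply, hT, if_pos (hb i hi φ)]

end Pool.Agent.Helper273.Sup
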