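import Pool.Agent.Helper273.Brg.Defs



namespace Pool.Agent.Helper273.Sup
open IntermediateField


theorem sum_pow_expand {K : Type*} [Field K] {m n : ℕ} (b : Fin m → Fin n → K) (c : Fin m → K)
    (i : ℕ) : ∑ l, (∑ j, c j * b j l) ^ i =
      ∑ φ : Fin i → Fin m, (∑ l, ∏ a, b (φ a) l) * ∏ a, c (φ a) := by
  have h : ∀ l, (∑ j, c j * b j l) ^ i = ∑ φ : Fin i → Fin m, (∏ a, b (φ a) l) * ∏ a, c (φ a) := by
    intro l
    have h1 : (∑ j, c j * b j l) ^ i = ∏ _a : Fin i, ∑ j, c j * b j l := by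
      rw [Finset.prod_const, Finset.card_univ, Fintype.card_fin]
    rw [h1, Finset.prod_univ_sum, Fintype.piFinset_univ]
    refine Finset.sum_congr rfl fun φ _ => ?_
    rw [Finset.prod_mul_distrib, mul_comm]
  rw [Finset.sum_congr rfl fun l _ => h l, Finset.sum_comm]
  refine Finset.sum_congr rfl fun φ _ => ?_
  rw [Finset.sum_mul]

end Pool.Agent.Helper273.Sup
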