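import Pool.Agent.Helper273.Brg.Defs
import Pool.Agent.Helper273.Gen.P_common_zero_sub
import Pool.Agent.Helper273.Gen.P_param_enum
import Pool.Agent.Helper273.Gen.P_sum_pow_expand
import Pool.Agent.Helper273.Gen.P_equi_prod
import Pool.Agent.Helper273.Brg.P_basis_trace
import Pool.Agent.Helper273.Sup.P_le_step



namespace Pool.Agent.Helper273.Sup
open IntermediateField


theorem zvec_gen {k K : Type*} [Field k] [Field K] [Algebra k K] [CharZero k] [IsAlgClosed K]
    {n d : ℕ} (hd : 2 ≤ d) (hdn : d ≤ n) (x y : Fin n → K) (hx : Gen k x) (hy : IsRoots x y) :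
    ∃ z : Fin n → K, z ≠ 0 ∧
      Equi k y (step (Nat.centralBinom (d - 1)) (adjoin k (Set.range x))) z ∧
      ∀ i, 1 ≤ i → i ≤ d - 1 → ∑ l, z l ^ i = 0 := by
  classical
  obtain ⟨b0, hE0, hsum0, hli0⟩ := basis_trace (le_trans hd hdn) x y hx hy
  have hm : d - 1 ≤ n - 1 := by omega
  set b : Fin (d - 1) → Fin n → K := fun j => b0 (Fin.castLE hm j) with hb
  have hE : ∀ j, Equi k y (adjoin k (Set.range x)) (b j) := fun j => hE0 _
  have hsum : ∀ j, ∑ i, b j i = 0 := fun j => hsum0 _
  have hli : LinearIndependent K b := hli0.comp _ (Fin.castLE_injective hm)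
  have hS : ∀ (i : ℕ) (φ : Fin i → Fin (d - 1)), ∑ l, ∏ a, b (φ a) l ∈ adjoin k (Set.range x) :=
    fun i φ => equi_prod x y hx hy b hE i φ
  obtain ⟨t, ht1, ht2⟩ := param_enum b (adjoin k (Set.range x)) (fun i _ φ => hS i φ)
  obtain ⟨c, hc0, hcalg, hc⟩ := common_zero_sub (adjoin k (Set.range t)) (m := d - 1) (q := d - 2)
    (by omega)
    (fun i φ => if i ≤ d - 1 then ∑ l, ∏ a, b (φ a) l else 0) (by
      intro i φ
      by_cases hi : i ≤ d - 1
      · simp only [if_pos hi]
        exact subset_adjoin k _ (ht2 i hi φ)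
      · simp only [if_neg hi]
        exact zero_mem _)
  refine ⟨fun l => ∑ j, c j * b j l, ?_, ?_, ?_⟩
  · intro hz
    apply hc0
    have h1 : ∑ j, c j • b j = 0 := by
      funext l
      have := congrFun hz l
      simpa [Finset.sum_apply, Pi.smul_apply, smul_eq_mul] using this
    funext j
    exact Fintype.linearIndependent_iff.mp hli c h1 j
  · intro σ hσ π hπ l
    have hle := le_step (k := k) (Nat.centralBinom (d - 1)) (Nat.centralBinom_pos (d - 1))
      (adjoin k (Set.range x))
    have h1 : ∀ j, σ (b j l) = b j (π l) := fun j => hE j σ (fun a ha => hσ a (hle ha)) π hπ l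
    have h2 : ∀ j, σ (c j) = c j := by
      intro j
      apply hσ
      unfold step
      apply subset_adjoin
      exact ⟨t, ht1, hcalg j⟩
    show σ (∑ j, c j * b j l) = ∑ j, c j * b j (π l)
    rw [map_sum]
    refine Finset.sum_congr rfl fun j _ => ?_
    rw [map_mul, h1, h2]
  · intro i hi1 hi2
    rcases Nat.lt_or_ge i 2 with hi | hi
    · have hi' : i = 1 := by omega
      subst hi'
      simp only [pow_one]
      rw [Finset.sum_comm]
      refine Finset.sum_eq_zero fun j _ => ?_
      rw [← Finset.mul_sum, hsum, mul_zero]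
    · rw [sum_pow_expand b c i]
      have h1 := hc i hi (by omega)
      rw [← h1]
      refine Finset.sum_congr rfl fun φ _ => ?_
      simp only [if_pos hi2]

end Pool.Agent.Helper273.Sup
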