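import Pool.Agent.Helper273.Brg.Main3
import Pool.Agent.Helper273.Gen.P_zvec_gen
import Pool.Agent.Helper273.Gen.P_stage_gen

namespace Pool.Agent.Helper273.Sup

open IntermediateField

theorem main_gen (k : Type*) [Field k] [IsAlgClosed k] [CharZero k] (K : Type*) [Field K]
    [Algebra k K] [IsAlgClosed K] (n : ℕ) (hn : 5 ≤ n) (x : Fin n → K)
    (hx : AlgebraicIndependent k x) (hK : Algebra.IsAlgebraic (adjoin k (Set.range x)) K)
    (f : K) (hf : f ^ n + ∑ i : Fin n, x i * f ^ (n - 1 - (i : ℕ)) = 0) (d : ℕ)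
    (hd : d + Nat.centralBinom (d - 1) ≤ n) (r : ℕ) (hr : n - d ≤ r) : f ∈ tower k x r 3 := by
  rcases Nat.lt_or_ge 4 d with h4 | h4
  · have hg : Gen k x := ⟨hx, hK⟩
    obtain ⟨y, hy⟩ := exists_roots x
    obtain ⟨i0, hi0⟩ := root_mem x y hy f hf
    have three : tower k x r 3 = step r (step r (adjoin k (Set.range x))) := rfl
    have hpos : 0 < Nat.centralBinom (d - 1) := Nat.centralBinom_pos _
    rw [three, hi0]
    refine step_mono _ _ hr _ (step_le_step _ _ _ (step_mono _ _ hr _) ?_)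
    refine stage_gen hn (by omega) (by omega) x y hg hy ?_ i0
    obtain ⟨z, hz0, hz, hs⟩ := zvec_gen (d := d) (by omega) (by omega) x y hg hy
    have hle : step (Nat.centralBinom (d - 1)) (adjoin k (Set.range x)) ≤
        step (n - d) (adjoin k (Set.range x)) := step_mono _ _ (by omega) _
    exact ⟨z, hz0, fun σ hσ π hπ i => hz σ (fun b hb => hσ b (hle hb)) π hπ i, hs⟩
  · exact main_three k K n hn x hx hK f hf r (by omega)

end Pool.Agent.Helper273.Sup
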